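import Mathlib
import Pool.Agent.W77.IM.CurvA

set_option autoImplicit false

open Polynomial Module
open Pool.Agent.W77.IM

namespace Pool.Agent.Q80.PB

universe u v w

variable {R : Type u} [CommRing R] {F : Type v} [Field F] [Algebra R F]

/-- Clearing denominators. -/
lemma exists_den [IsDomain R] [CharZero R] (x : F) (hx : ∀ q : R[X], q ≠ 0 → (aeval x q : F) ≠ 0) (T : R[X])
    (hT : T ≠ 0) (Z : Finset F)
    (hZ : ∀ z ∈ Z, z ∈ (Subfield.closure (Set.range (algebraMap R F) ∪ {x}) : Subfield F)) :
    ∃ U : R[X], U ≠ 0 ∧ T ∣ U ∧ ∀ z ∈ Z, z ∈ CoordRing x U R := by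
  classical
  induction Z using Finset.induction_on with
  | empty => exact ⟨T, hT, dvd_rfl, fun z hz => by simp at hz⟩
  | insert a Z ha ih =>
    obtain ⟨U, hU, hTU, h⟩ := ih fun z hz => hZ z (Finset.mem_insert_of_mem hz)
    obtain ⟨f, q, hq, h1⟩ := frac_of_mem x hx (hZ a (Finset.mem_insert_self _ _))
    have hU' : (aeval x (U * q) : F) ≠ 0 := hx _ (mul_ne_zero hU hq)
    have hmono : ∀ z ∈ CoordRing x U R, z ∈ CoordRing x (U * q) R := by
      intro z hz
      induction hz using Algebra.adjoin_induction with
      | mem z hz =>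
        rcases hz with rfl | hz
        · simpa using aeval_mem z (U * q) (X : R[X])
        · rw [Set.mem_singleton_iff] at hz
          have h2 : z = aeval x q * (aeval x (U * q))⁻¹ := by
            rw [hz, map_mul]
            rw [map_mul] at hU'
            have := left_ne_zero_of_mul hU'
            have := right_ne_zero_of_mul hU'
            field_simp
          rw [h2]
          exact Subalgebra.mul_mem _ (aeval_mem x _ _) (inv_mem_coord x _)
      | algebraMap c => exact Subalgebra.algebraMap_mem _ _
      | add a b _ _ ha hb => exact Subalgebra.add_mem _ ha hb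
      | mul a b _ _ ha hb => exact Subalgebra.mul_mem _ ha hb
    refine ⟨U * q, mul_ne_zero hU hq, hTU.mul_right q, fun z hz => ?_⟩
    rcases Finset.mem_insert.mp hz with rfl | hz
    · have h2 : z = aeval x (f * U) * (aeval x (U * q))⁻¹ := by
        rw [eq_mul_inv_iff_mul_eq₀ hU', map_mul, map_mul, ← h1]
        ring
      rw [h2]
      exact Subalgebra.mul_mem _ (aeval_mem x _ _) (inv_mem_coord x _)
    · exact hmono z (h z hz)

lemma coord_mono (x : F) {T U : R[X]} (hU : (aeval x U : F) ≠ 0) (hTU : T ∣ U) {z : F}
    (hz : z ∈ CoordRing x T R) : z ∈ CoordRing x U R := by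
  obtain ⟨q, rfl⟩ := hTU
  induction hz using Algebra.adjoin_induction with
  | mem z hz =>
    rcases hz with rfl | hz
    · simpa using aeval_mem z (T * q) (X : R[X])
    · rw [Set.mem_singleton_iff] at hz
      have h2 : z = aeval x q * (aeval x (T * q))⁻¹ := by
        rw [hz, map_mul]
        rw [map_mul] at hU
        have := left_ne_zero_of_mul hU
        have := right_ne_zero_of_mul hU
        field_simp
      rw [h2]
      exact Subalgebra.mul_mem _ (aeval_mem x _ _) (inv_mem_coord x _)
  | algebraMap c => exact Subalgebra.algebraMap_mem _ _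
  | add a b _ _ ha hb => exact Subalgebra.add_mem _ ha hb
  | mul a b _ _ ha hb => exact Subalgebra.mul_mem _ ha hb

lemma coord_subset (x : F) (U : R[X]) {z : F} (hz : z ∈ CoordRing x U R) :
    z ∈ (Subfield.closure (Set.range (algebraMap R F) ∪ {x}) : Subfield F) := by
  have hp : ∀ f : R[X], (aeval x f : F) ∈
      (Subfield.closure (Set.range (algebraMap R F) ∪ {x}) : Subfield F) := by
    intro f
    have hx : x ∈ (Subfield.closure (Set.range (algebraMap R F) ∪ {x}) : Subfield F) :=
      Subfield.subset_closure (Or.inr rfl)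
    induction f using Polynomial.induction_on' with
    | add f g hf hg => rw [map_add]; exact add_mem hf hg
    | monomial n a =>
      rw [aeval_monomial]
      exact mul_mem (Subfield.subset_closure (Or.inl ⟨a, rfl⟩)) (pow_mem hx n)
  induction hz using Algebra.adjoin_induction with
  | mem z hz =>
    rcases hz with rfl | hz
    · exact Subfield.subset_closure (Or.inr rfl)
    · rw [Set.mem_singleton_iff] at hz
      rw [hz]; exact inv_mem (hp U)
  | algebraMap c => exact Subfield.subset_closure (Or.inl ⟨c, rfl⟩)
  | add a b _ _ ha hb => exact add_mem ha hb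
  | mul a b _ _ ha hb => exact mul_mem ha hb

/-- A primitive element. -/
lemma exists_prim [CharZero F] (x : F)
    (halg : ∀ z : F, IsAlgebraic (Subfield.closure (Set.range (algebraMap R F) ∪ {x})) z)
    (S : Finset F) :
    ∃ y : F, ∀ s ∈ S, ∃ g : (Subfield.closure (Set.range (algebraMap R F) ∪ {x}))[X],
      s = aeval y g := by
  classical
  set L : Subfield F := Subfield.closure (Set.range (algebraMap R F) ∪ {x}) with hL
  let M : IntermediateField L F := IntermediateField.adjoin L (S : Set F)
  have hint : ∀ z : F, IsIntegral L z := fun z => (halg z).isIntegral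
  have hfin : FiniteDimensional L M :=
    IntermediateField.finiteDimensional_adjoin (fun z _ => hint z)
  have hch : CharZero L := inferInstance
  obtain ⟨y, hy⟩ := Field.exists_primitive_element L M
  refine ⟨(y : F), fun s hs => ?_⟩
  have hsM : s ∈ M := IntermediateField.subset_adjoin L _ hs
  have h1 : (⟨s, hsM⟩ : M) ∈ (IntermediateField.adjoin L {y} : IntermediateField L M) := by
    rw [hy]; exact IntermediateField.mem_top
  have h2 : IsIntegral L y := by
    have := Algebra.IsIntegral.of_finite L M
    exact Algebra.IsIntegral.isIntegral y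
  rw [← IntermediateField.mem_toSubalgebra,
    IntermediateField.adjoin_simple_toSubalgebra_of_isAlgebraic h2.isAlgebraic,
    Algebra.adjoin_singleton_eq_range_aeval] at h1
  obtain ⟨g, hg⟩ := h1
  refine ⟨g, ?_⟩
  have h3 := congrArg (fun z : M => (z : F)) hg
  simp only at h3
  rw [← h3]
  have h4 : ((aeval y g : M) : F) = aeval (y : F) g := by
    have := Polynomial.aeval_algebraMap_apply F y g
    exact this.symm
  exact h4.symm ▸ rfl

section monic

variable {A : Type w} [CommRing A]

/-- Division by a monic polynomial preserves the ideals of coefficients. -/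
lemma coeff_modByMonic {P : A[X]} (hP : P.Monic) (I : Ideal A) {f : A[X]}
    (hf : ∀ m, f.coeff m ∈ I) (m : ℕ) : (f %ₘ P).coeff m ∈ I := by
  rw [← Ideal.Quotient.eq_zero_iff_mem, ← Polynomial.coeff_map, Polynomial.map_modByMonic _ hP]
  have h1 : f.map (Ideal.Quotient.mk I) = 0 := by
    ext n
    rw [Polynomial.coeff_map, coeff_zero, Ideal.Quotient.eq_zero_iff_mem]
    exact hf n
  rw [h1, Polynomial.zero_modByMonic, coeff_zero]

end monic

end Pool.Agent.Q80.PB
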