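import Mathlib
import Pool.Agent.Q80.PB.Ring

set_option autoImplicit false

open Polynomial

namespace Pool.Agent.Q80.PB

universe u v w

variable {F : Type v} [Field F]

/-- The values at `y` of the polynomials with coefficients in `S`. -/
def Val (S : Set F) (y : F) (z : F) : Prop := ∃ f : F[X], (∀ m, f.coeff m ∈ S) ∧ f.eval y = z

/-- The subring generated by `A` and `y`. -/
def BB (A : Subring F) (y : F) : Subring F where
  carrier := {z | Val (A : Set F) y z}
  mul_mem' := by
    rintro a b ⟨f, hf, rfl⟩ ⟨g, hg, rfl⟩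
    refine ⟨f * g, fun m => ?_, by rw [eval_mul]⟩
    rw [coeff_mul]
    exact sum_mem fun z _ => mul_mem (hf _) (hg _)
  one_mem' := ⟨1, fun m => by
    rw [coeff_one]
    split_ifs
    · exact A.one_mem
    · exact A.zero_mem, by rw [eval_one]⟩
  add_mem' := by
    rintro a b ⟨f, hf, rfl⟩ ⟨g, hg, rfl⟩
    exact ⟨f + g, fun m => by rw [coeff_add]; exact add_mem (hf m) (hg m), by rw [eval_add]⟩
  zero_mem' := ⟨0, fun m => by rw [coeff_zero]; exact A.zero_mem, by rw [eval_zero]⟩
  neg_mem' := by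
    rintro a ⟨f, hf, rfl⟩
    exact ⟨-f, fun m => by rw [coeff_neg]; exact neg_mem (hf m), by rw [eval_neg]⟩

lemma mem_BB {A : Subring F} {y z : F} : z ∈ BB A y ↔ Val (A : Set F) y z := Iff.rfl

lemma le_BB {A : Subring F} {y z : F} (hz : z ∈ A) : z ∈ BB A y := by
  refine ⟨C z, fun m => ?_, by rw [eval_C]⟩
  rw [coeff_C]
  split_ifs
  · exact hz
  · exact A.zero_mem

lemma y_mem_BB {A : Subring F} {y : F} : y ∈ BB A y := by
  refine ⟨X, fun m => ?_, by rw [eval_X]⟩
  rw [coeff_X]
  split_ifs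
  · exact A.one_mem
  · exact A.zero_mem

lemma eval_mem_BB {A : Subring F} {y : F} {f : F[X]} (hf : ∀ m, f.coeff m ∈ A) :
    f.eval y ∈ BB A y := ⟨f, hf, rfl⟩

/-- An element `y` étale over `A`. -/
structure IsPrim (A : Subring F) (y : F) (P : F[X]) : Prop where
  monic : P.Monic
  coeff : ∀ m, P.coeff m ∈ A
  root : P.eval y = 0
  inv : P.derivative.eval y ≠ 0
  mem_inv : (P.derivative.eval y)⁻¹ ∈ BB A y
  min : ∀ f : F[X], (∀ m, f.coeff m ∈ A) → f.degree < P.degree → f.eval y = 0 → f = 0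
  pos : 0 < P.degree

variable {A : Subring F} {y : F} {P : F[X]}

lemma coeff_derivative_mem {f : F[X]} (hf : ∀ m, f.coeff m ∈ A) (m : ℕ) :
    f.derivative.coeff m ∈ A := by
  rw [coeff_derivative]
  exact mul_mem (hf _) (add_mem (natCast_mem A m) A.one_mem)

/-- The polynomials with coefficients in `A`, by induction on the degree: it suffices to treat
monomials. -/
lemma pol_induction {Q : F[X] → Prop} (h0 : Q 0) (hadd : ∀ f g, Q f → Q g → Q (f + g))
    (hmon : ∀ n, ∀ a ∈ A, Q (monomial n a)) {f : F[X]} (hf : ∀ m, f.coeff m ∈ A) : Q f := by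
  rw [f.as_sum_support]
  have : ∀ s : Finset ℕ, Q (∑ i ∈ s, monomial i (f.coeff i)) := by
    classical
    intro s
    induction s using Finset.induction_on with
    | empty => rw [Finset.sum_empty]; exact h0
    | insert a s ha ih => rw [Finset.sum_insert ha]; exact hadd _ _ (hmon _ _ (hf _)) ih
  exact this _

section der

variable (δ : Derivation ℤ F F)

lemma der_eval (hA : ∀ a ∈ A, δ a ∈ A) {f : F[X]} (hf : ∀ m, f.coeff m ∈ A) :
    ∃ b ∈ BB A y, δ (f.eval y) = b + f.derivative.eval y * δ y := by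
  refine pol_induction (A := A) (Q := fun f => ∃ b ∈ BB A y, δ (f.eval y) =
    b + f.derivative.eval y * δ y) ?_ ?_ ?_ hf
  · exact ⟨0, zero_mem _, by simp⟩
  · rintro f g ⟨b, hb, h1⟩ ⟨c, hc, h2⟩
    exact ⟨b + c, add_mem hb hc, by rw [eval_add, map_add, h1, h2, derivative_add, eval_add]; ring⟩
  · intro n a ha
    refine ⟨δ a * y ^ n, mul_mem (le_BB (hA a ha)) (pow_mem y_mem_BB n), ?_⟩
    rw [eval_monomial, derivative_monomial, eval_monomial, Derivation.leibniz,
      Derivation.leibniz_pow]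
    simp only [smul_eq_mul, nsmul_eq_mul]
    ring

lemma IsPrim.der_mem (D : IsPrim A y P) (hA : ∀ a ∈ A, δ a ∈ A) {z : F} (hz : z ∈ BB A y) :
    δ z ∈ BB A y := by
  obtain ⟨b, hb, h1⟩ := der_eval (y := y) δ hA D.coeff
  rw [D.root, map_zero] at h1
  have h2 : δ y = -b * (P.derivative.eval y)⁻¹ := by
    have := D.inv
    field_simp
    linear_combination -h1
  have h3 : δ y ∈ BB A y := by
    rw [h2]; exact mul_mem (neg_mem hb) D.mem_inv
  obtain ⟨f, hf, rfl⟩ := hz
  obtain ⟨c, hc, h4⟩ := der_eval (y := y) δ hA hf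
  rw [h4]
  exact add_mem hc (mul_mem (eval_mem_BB (coeff_derivative_mem hf)) h3)

/-- The `p`-th power of a derivation which preserves a subring is a derivation modulo `p`. -/
lemma pderF {B : Subring F} (hB : ∀ a ∈ B, δ a ∈ B) {p : ℕ} (hp : p.Prime) {a b : F} (ha : a ∈ B)
    (hb : b ∈ B) : ∃ v ∈ B, δ^[p] (a * b) = δ^[p] a * b + a * δ^[p] b + p * v := by
  let d : B →+ B :=
    { toFun := fun c => ⟨δ c, hB c c.2⟩
      map_zero' := Subtype.ext (map_zero δ)
      map_add' := fun a b => Subtype.ext (map_add δ _ _) }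
  have hd : ∀ (n : ℕ) (c : B), ((d^[n] c : B) : F) = δ^[n] (c : F) := by
    intro n c
    induction n with
    | zero => rfl
    | succ n ih => rw [Function.iterate_succ_apply', Function.iterate_succ_apply', ← ih]; rfl
  obtain ⟨v, hv⟩ := Pool.Agent.W77.IM.pder d (fun a b => by
    apply Subtype.ext
    change δ ((a : F) * b) = δ a * b + a * δ b
    rw [Derivation.leibniz, smul_eq_mul, smul_eq_mul]
    ring) hp ⟨a, ha⟩ ⟨b, hb⟩
  refine ⟨v, v.2, ?_⟩
  have h1 := congrArg (fun c : B => (c : F)) hv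
  simp only [hd, Subring.coe_add, Subring.coe_mul, Subring.coe_natCast] at h1
  exact h1

lemma IsPrim.iterate (D : IsPrim A y P) (hA : ∀ a ∈ A, δ a ∈ A) {p : ℕ} (hp : p.Prime)
    (hAp : ∀ a ∈ A, ∃ v ∈ A, δ^[p] a = p * v) {z : F} (hz : z ∈ BB A y) :
    ∃ v ∈ BB A y, δ^[p] z = p * v := by
  have hB : ∀ a ∈ BB A y, δ a ∈ BB A y := fun a ha => D.der_mem δ hA ha
  have hpow : ∀ n : ℕ, ∃ v ∈ BB A y, δ^[p] (y ^ n) = (n : F) * y ^ (n - 1) * δ^[p] y + p * v := by
    intro n
    induction n with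
    | zero =>
      obtain ⟨v, hv, h⟩ := hAp 1 A.one_mem
      exact ⟨v, le_BB hv, by rw [pow_zero, h]; simp⟩
    | succ n ih =>
      obtain ⟨v, hv, h1⟩ := ih
      obtain ⟨w, hw, h2⟩ := pderF δ hB hp (pow_mem y_mem_BB n) (y_mem_BB (A := A) (y := y))
      refine ⟨v * y + w, add_mem (mul_mem hv y_mem_BB) hw, ?_⟩
      rw [pow_succ, h2, h1]
      cases n with
      | zero => simp; ring
      | succ m =>
        simp only [Nat.add_sub_cancel]
        push_cast
        ring
  have key : ∀ f : F[X], (∀ m, f.coeff m ∈ A) → ∃ v ∈ BB A y, δ^[p] (f.eval y) =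
      f.derivative.eval y * δ^[p] y + p * v := by
    intro f hf
    refine pol_induction (A := A) (Q := fun f => ∃ v ∈ BB A y, δ^[p] (f.eval y) =
      f.derivative.eval y * δ^[p] y + p * v) ?_ ?_ ?_ hf
    · exact ⟨0, zero_mem _, by rw [eval_zero, iterate_map_zero]; simp⟩
    · rintro f g ⟨v, hv, h1⟩ ⟨w, hw, h2⟩
      exact ⟨v + w, add_mem hv hw, by
        rw [eval_add, iterate_map_add, h1, h2, derivative_add, eval_add]; ring⟩
    · intro n a ha
      obtain ⟨v, hv, h1⟩ := hAp a ha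
      obtain ⟨w, hw, h2⟩ := hpow n
      obtain ⟨u, hu, h3⟩ := pderF δ hB hp (le_BB ha) (pow_mem (y_mem_BB (A := A) (y := y)) n)
      refine ⟨v * y ^ n + a * w + u, add_mem (add_mem (mul_mem (le_BB hv) (pow_mem y_mem_BB n))
        (mul_mem (le_BB ha) hw)) hu, ?_⟩
      rw [eval_monomial, h3, h1, h2, derivative_monomial, eval_monomial]
      ring
  have hy : ∃ v ∈ BB A y, δ^[p] y = p * v := by
    obtain ⟨v, hv, h1⟩ := key P D.coeff
    rw [D.root, iterate_map_zero] at h1
    refine ⟨-(v * (P.derivative.eval y)⁻¹), neg_mem (mul_mem hv D.mem_inv), ?_⟩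
    have := D.inv
    field_simp
    linear_combination -h1
  obtain ⟨f, hf, rfl⟩ := hz
  obtain ⟨v, hv, h1⟩ := key f hf
  obtain ⟨w, hw, h2⟩ := hy
  exact ⟨f.derivative.eval y * w + v, add_mem (mul_mem (eval_mem_BB (coeff_derivative_mem hf)) hw)
    hv, by rw [h1, h2]; ring⟩

end der

/-- The ideal generated by an ideal `I` of `A` meets `A` in `I`. -/
lemma IsPrim.comap (D : IsPrim A y P) (I : Ideal A) {c : F} (hc : c ∈ A)
    (h : Val ((fun a : A => (a : F)) '' (I : Set A)) y c) : (⟨c, hc⟩ : A) ∈ I := by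
  obtain ⟨f, hf, h1⟩ := h
  have hfA : ∀ m, f.coeff m ∈ A := fun m => by
    obtain ⟨a, -, ha⟩ := hf m
    rw [← ha]; exact a.2
  have hlift : ∀ g : F[X], (∀ m, g.coeff m ∈ A) → ∃ g' : A[X], g'.map A.subtype = g := by
    intro g hg
    have := (Polynomial.mem_lifts (f := A.subtype) g).mp (by
      rw [Polynomial.lifts_iff_coeff_lifts]
      intro n
      exact ⟨⟨_, hg n⟩, rfl⟩)
    exact this
  obtain ⟨f', hf'⟩ := hlift f hfA
  obtain ⟨P', hP'⟩ := hlift P D.coeff
  have hinj : Function.Injective A.subtype := Subtype.val_injective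
  have hmon : P'.Monic := by
    have := D.monic
    rw [← hP'] at this
    exact Polynomial.monic_of_injective hinj this
  have hI : ∀ m, f'.coeff m ∈ I := by
    intro m
    obtain ⟨a, ha, h2⟩ := hf m
    have h3 : a = f'.coeff m := by
      apply hinj
      rw [← Polynomial.coeff_map, hf']
      exact h2
    rw [← h3]; exact ha
  have hr := coeff_modByMonic hmon I hI
  set r := f' %ₘ P' with hrdef
  have h4 : (r.map A.subtype).eval y = c := by
    rw [hrdef, Polynomial.map_modByMonic _ hmon, hf', hP', ← h1]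
    conv_rhs => rw [← modByMonic_add_div f P]
    rw [eval_add, eval_mul, D.root, zero_mul, add_zero]
  have h5 : (r.map A.subtype - C c).degree < P.degree := by
    refine lt_of_le_of_lt (degree_sub_le _ _) (max_lt ?_ (lt_of_le_of_lt degree_C_le D.pos))
    rw [hrdef, Polynomial.map_modByMonic _ hmon, hP']
    exact degree_modByMonic_lt _ D.monic
  have h6 := D.min (r.map A.subtype - C c) (fun m => by
    rw [coeff_sub, Polynomial.coeff_map, coeff_C]
    refine sub_mem (Subtype.coe_prop _) ?_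
    split_ifs
    · exact hc
    · exact A.zero_mem) h5 (by rw [eval_sub, h4, eval_C, sub_self])
  have h7 := congrArg (fun q => q.coeff 0) h6
  simp only [coeff_sub, Polynomial.coeff_map, coeff_C_zero, coeff_zero] at h7
  have h8 : r.coeff 0 = ⟨c, hc⟩ := by
    apply hinj
    exact sub_eq_zero.mp h7
  rw [← h8]
  exact hr 0

end Pool.Agent.Q80.PB
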