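import Mathlib
import Pool.Agent.Q80.PB.Etale

set_option autoImplicit false

open Polynomial Module
open Pool.Agent.W77.IM

namespace Pool.Agent.Q80.PB

universe u v w

variable {R : Type u} [CommRing R] [IsDomain R] [CharZero R] {F : Type v} [Field F] [Algebra R F]

/-- The field generated by `R` and `x`. -/
abbrev LL (R : Type u) [CommRing R] {F : Type v} [Field F] [Algebra R F] (x : F) : Subfield F :=
  Subfield.closure (Set.range (algebraMap R F) ∪ {x})

omit [IsDomain R] [CharZero R] in
lemma adjoin_le_LL (x : F) {z : F} (hz : z ∈ Algebra.adjoin R ({x} : Set F)) : z ∈ LL R x := by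
  induction hz using Algebra.adjoin_induction with
  | mem z hz =>
    rw [Set.mem_singleton_iff] at hz
    exact Subfield.subset_closure (Or.inr hz)
  | algebraMap c => exact Subfield.subset_closure (Or.inl ⟨c, rfl⟩)
  | add a b _ _ ha hb => exact add_mem ha hb
  | mul a b _ _ ha hb => exact mul_mem ha hb

omit [IsDomain R] [CharZero R] in
lemma isAlgebraic_LL (x : F) {z : F} (hz : IsAlgebraic (Algebra.adjoin R ({x} : Set F)) z) :
    IsAlgebraic (LL R x) z := by
  obtain ⟨q, hq, h⟩ := hz
  let i : Algebra.adjoin R ({x} : Set F) →+* LL R x :=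
    { toFun := fun a => ⟨a, adjoin_le_LL x a.2⟩
      map_one' := rfl
      map_mul' := fun _ _ => rfl
      map_zero' := rfl
      map_add' := fun _ _ => rfl }
  have hi : Function.Injective i := fun a b hab => Subtype.ext (congrArg (fun c : LL R x => (c : F)) hab)
  refine ⟨q.map i, (Polynomial.map_ne_zero_iff hi).mpr hq, ?_⟩
  rw [aeval_def, eval₂_map]
  exact h

theorem exists_isPrim (hR : Function.Injective (algebraMap R F)) (δ : Derivation R F F) (x : F)
    (hx : δ x = 1) (halg : ∀ z : F, IsAlgebraic (Algebra.adjoin R ({x} : Set F)) z) (T : R[X])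
    (hT : T ≠ 0) (S : Finset F) :
    ∃ (U : R[X]) (y : F) (P : F[X]), U ≠ 0 ∧ T ∣ U ∧ IsPrim (CoordRing x U R).toSubring y P ∧
      ∀ s ∈ S, s ∈ BB (CoordRing x U R).toSubring y := by
  classical
  have hchF : CharZero F := charZero_of_injective_algebraMap hR
  have htr : ∀ q : R[X], q ≠ 0 → (aeval x q : F) ≠ 0 := fun q hq =>
    aeval_ne_zero hR (δ.restrictScalars ℤ) (fun a => δ.map_algebraMap a) x hx hq
  obtain ⟨y, hy⟩ := exists_prim (R := R) x (fun z => isAlgebraic_LL x (halg z)) S
  choose! g hg using hy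
  have hint : IsIntegral (LL R x) y := (isAlgebraic_LL x (halg y)).isIntegral
  set P₀ : (LL R x)[X] := minpoly (LL R x) y with hP₀
  have hsep : P₀.Separable := (minpoly.irreducible hint).separable
  obtain ⟨a, b, hab⟩ := hsep
  have hroot : aeval y P₀ = 0 := minpoly.aeval _ _
  have hbw : aeval y b * aeval y (derivative P₀) = 1 := by
    have h1 := congrArg (aeval y) hab
    rw [map_add, map_mul, map_mul, hroot, mul_zero, zero_add, map_one] at h1
    exact h1
  -- the finite set of coefficients
  let cf : (LL R x)[X] → Finset F := fun q => q.support.image fun m => ((q.coeff m : LL R x) : F)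
  let Z : Finset F := cf P₀ ∪ cf b ∪ S.biUnion fun s => cf (g s)
  obtain ⟨U, hU, hTU, hZ⟩ := exists_den (R := R) x htr T hT Z (by
    intro z hz
    have h1 : ∀ q : (LL R x)[X], z ∈ cf q → z ∈ LL R x := by
      intro q hq
      obtain ⟨m, -, rfl⟩ := Finset.mem_image.mp hq
      exact Subtype.coe_prop _
    rcases Finset.mem_union.mp hz with hz | hz
    · rcases Finset.mem_union.mp hz with hz | hz
      · exact h1 _ hz
      · exact h1 _ hz
    · obtain ⟨s, -, hs⟩ := Finset.mem_biUnion.mp hz
      exact h1 _ hs)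
  set A : Subring F := (CoordRing x U R).toSubring with hA
  have hcf : ∀ q : (LL R x)[X], cf q ⊆ Z → ∀ m, (q.map (algebraMap (LL R x) F)).coeff m ∈ A := by
    intro q hq m
    rw [Polynomial.coeff_map]
    by_cases hm : q.coeff m = 0
    · rw [hm, map_zero]; exact A.zero_mem
    · exact hZ _ (hq (Finset.mem_image.mpr ⟨m, mem_support_iff.mpr hm, rfl⟩))
  have h1 : cf P₀ ⊆ Z := fun z hz => Finset.mem_union_left _ (Finset.mem_union_left _ hz)
  have h2 : cf b ⊆ Z := fun z hz => Finset.mem_union_left _ (Finset.mem_union_right _ hz)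
  have h3 : ∀ s ∈ S, cf (g s) ⊆ Z := fun s hs z hz =>
    Finset.mem_union_right _ (Finset.mem_biUnion.mpr ⟨s, hs, hz⟩)
  have hev : ∀ q : (LL R x)[X], (q.map (algebraMap (LL R x) F)).eval y = aeval y q := fun q => by
    rw [eval_map_algebraMap]
  refine ⟨U, y, P₀.map (algebraMap (LL R x) F), hU, hTU, ⟨?_, hcf _ h1, ?_, ?_, ?_, ?_, ?_⟩, ?_⟩
  · exact (minpoly.monic hint).map _
  · rw [hev, hroot]
  · rw [derivative_map, hev]
    exact right_ne_zero_of_mul_eq_one hbw
  · rw [derivative_map, hev, ← eq_inv_of_mul_eq_one_left hbw, ← hev]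
    exact eval_mem_BB (hcf _ h2)
  · intro f hf hdeg hfy
    have hfL : ∀ m, f.coeff m ∈ LL R x := fun m => coord_subset x U (hf m)
    obtain ⟨f', hf'⟩ := (Polynomial.mem_lifts (f := algebraMap (LL R x) F) f).mp (by
      rw [Polynomial.lifts_iff_coeff_lifts]
      intro n
      exact ⟨⟨_, hfL n⟩, rfl⟩)
    have hinj : Function.Injective (algebraMap (LL R x) F) := (algebraMap (LL R x) F).injective
    rw [← hf', hev] at hfy
    have h4 : P₀ ∣ f' := minpoly.dvd _ _ hfy
    rw [← hf', degree_map_eq_of_injective hinj, degree_map_eq_of_injective hinj] at hdeg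
    rw [← hf', Polynomial.eq_zero_of_dvd_of_degree_lt h4 hdeg, Polynomial.map_zero]
  · rw [degree_map_eq_of_injective (algebraMap (LL R x) F).injective]
    exact minpoly.degree_pos hint
  · intro s hs
    rw [hg s hs, ← hev]
    exact eval_mem_BB (hcf _ (h3 s hs))

end Pool.Agent.Q80.PB
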