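import Mathlib
import Pool.Agent.W432.PC.Final
import Pool.Agent.W77.IM.PLeib

set_option autoImplicit false

open Polynomial
open Pool.Agent.W432.PC

namespace Pool.Agent.Q80.PB

variable {k : Type*} [Field k] {n r : ℕ}

lemma ddx_iterate_div {p : ℕ} [CharP k p] (h g : k[X]) (m : ℕ) :
    (ddx k)^[m] (algebraMap k[X] (RatFunc k) h * ((algebraMap k[X] (RatFunc k) g) ^ p)⁻¹) =
      algebraMap k[X] (RatFunc k) (derivative^[m] h) * ((algebraMap k[X] (RatFunc k) g) ^ p)⁻¹ := by
  have hch : CharP (RatFunc k) p := charP_of_injective_algebraMap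
    (algebraMap k (RatFunc k)).injective p
  induction m with
  | zero => rfl
  | succ m ih =>
    rw [Function.iterate_succ_apply', ih, Function.iterate_succ_apply', Derivation.leibniz,
      ddx_algebraMap, Derivation.leibniz_inv, Derivation.leibniz_pow]
    simp only [smul_eq_mul, nsmul_eq_mul, CharP.cast_eq_zero, zero_mul, mul_zero, zero_add]
    ring

/-- The `p`-th power of `d/dx` vanishes in characteristic `p`. -/
lemma ddx_iterate_p {p : ℕ} [hp : Fact p.Prime] [CharP k p] (a : RatFunc k) :
    (ddx k)^[p] a = 0 := by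
  obtain ⟨f, g, hg, rfl⟩ := IsFractionRing.div_surjective (A := k[X]) a
  have hg0 : g ≠ 0 := nonZeroDivisors.ne_zero hg
  have hg1 : algebraMap k[X] (RatFunc k) g ≠ 0 := by
    rw [Ne, map_eq_zero_iff _ (IsFractionRing.injective k[X] (RatFunc k))]
    exact hg0
  have h1 : algebraMap k[X] (RatFunc k) f / algebraMap k[X] (RatFunc k) g =
      algebraMap k[X] (RatFunc k) (f * g ^ (p - 1)) * ((algebraMap k[X] (RatFunc k) g) ^ p)⁻¹ := by
    obtain ⟨m, hm⟩ : ∃ m, p = m + 1 := ⟨p - 1, by have := hp.out.pos; omega⟩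
    rw [hm, Nat.add_sub_cancel, map_mul, map_pow, pow_succ]
    field_simp
  rw [h1, ddx_iterate_div]
  have h2 : derivative^[p] (f * g ^ (p - 1)) = 0 := by
    have h3 := congrFun (Polynomial.factorial_smul_hasseDeriv (R := k) p) (f * g ^ (p - 1))
    have h5 : ((p.factorial : ℕ) : k) = 0 := by
      rw [CharP.cast_eq_zero_iff k p]
      exact (Nat.Prime.dvd_factorial hp.out).mpr le_rfl
    have h4 : derivative^[p] (f * g ^ (p - 1)) =
        p.factorial • (hasseDeriv p (f * g ^ (p - 1))) := by
      rw [← h3]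
      rfl
    rw [h4, nsmul_eq_mul]
    have : ((p.factorial : ℕ) : k[X]) = C ((p.factorial : ℕ) : k) := by simp
    rw [this, h5, map_zero, zero_mul]
  rw [h2, map_zero, zero_mul]

/-- The connection as an additive map. -/
noncomputable def nablaHom (α : Fin n → k) (A : Fin n → Matrix (Fin r) (Fin r) k) :
    (Fin r → RatFunc k) →+ (Fin r → RatFunc k) where
  toFun := nabla α A
  map_zero' := by
    funext i
    simp [nabla]
  map_add' y z := by
    funext i
    simp only [nabla, Pi.add_apply, map_add, Matrix.mulVec_add]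
    ring

theorem pCurvZero_of_Q {p : ℕ} [hp : Fact p.Prime] [CharP k p] (α : Fin n → k)
    (A : Fin n → Matrix (Fin r) (Fin r) k) (hQ : Q α A p = 0) : PCurvZero α A := by
  intro y
  have hch : CharP (RatFunc k) p := charP_of_injective_algebraMap
    (algebraMap k (RatFunc k)).injective p
  have hrc : ringChar k = p := ringChar.eq k p
  rw [hrc]
  have h0 : ∀ c : Fin r, (nabla α A)^[p] (Pi.single c 1) = 0 := by
    intro c
    funext l
    have h1 := nabla_iterate (α := α) (A := A) c p l
    rw [hQ, Matrix.zero_apply, map_zero] at h1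
    refine (mul_eq_zero.mp h1).resolve_left (pow_ne_zero _ ?_)
    rw [Ne, map_eq_zero_iff _ (IsFractionRing.injective k[X] (RatFunc k))]
    exact T_ne
  have h1 : ∀ (f : RatFunc k) (v : Fin r → RatFunc k), (nabla α A)^[p] v = 0 →
      (nabla α A)^[p] (f • v) = 0 := by
    intro f v hv
    obtain ⟨w, hw⟩ := Pool.Agent.W77.IM.pleib (ddx k) (nablaHom α A) (fun a m => by
      funext i
      simp only [nablaHom, AddMonoidHom.coe_mk, ZeroHom.coe_mk, nabla, Pi.smul_apply, smul_eq_mul,
        Pi.add_apply, Derivation.leibniz, Matrix.mulVec_smul]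
      ring) hp.out f v
    have h2 : (nablaHom α A)^[p] (f • v) = (nabla α A)^[p] (f • v) := rfl
    have h3 : (nablaHom α A)^[p] v = (nabla α A)^[p] v := rfl
    rw [h2, h3, hv, ddx_iterate_p, zero_smul, smul_zero, zero_add, zero_add] at hw
    rw [hw]
    funext i
    rw [Pi.smul_apply, nsmul_eq_mul, CharP.cast_eq_zero, zero_mul]
    rfl
  have h2 : y = ∑ c, y c • (Pi.single c 1 : Fin r → RatFunc k) := by
    funext i
    rw [Finset.sum_apply, Finset.sum_eq_single i]
    · simp
    · intro j _ hj
      simp [Pi.single_eq_of_ne (Ne.symm hj)]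
    · intro h; exact absurd (Finset.mem_univ i) h
  have h3 : ∀ s : Finset (Fin r),
      (nablaHom α A)^[p] (∑ c ∈ s, y c • (Pi.single c 1 : Fin r → RatFunc k)) = 0 := by
    classical
    intro s
    induction s using Finset.induction_on with
    | empty => rw [Finset.sum_empty, iterate_map_zero]
    | insert a s ha ih =>
      rw [Finset.sum_insert ha, iterate_map_add, ih, add_zero]
      exact h1 _ _ (h0 a)
  rw [h2]
  exact h3 Finset.univ

end Pool.Agent.Q80.PB
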