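import Mathlib
import Pool.Agent.Q80.PB.Exist
import Pool.Agent.Q80.PB.Modp

set_option autoImplicit false

open Polynomial Module
open Pool.Agent.W77.IM Pool.Agent.W432.PC

namespace Pool.Agent.Q80.PB

universe u v w

variable {R : Type u} [CommRing R] {F : Type v} [Field F] [Algebra R F]

/-- The connection `δ - ∑ j, A j / (x - α j)` on `F ^ r`. -/
noncomputable def pull (δ : Derivation R F F) (x : F) {n r : ℕ} (α : Fin n → R)
    (A : Fin n → Matrix (Fin r) (Fin r) R) (v : Fin r → F) : Fin r → F :=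
  fun i => δ (v i) - ∑ j, (x - algebraMap R F (α j))⁻¹ * ∑ l, algebraMap R F (A j i l) * v l

/-- The connection as an additive map. -/
noncomputable def pullHom (δ : Derivation R F F) (x : F) {n r : ℕ} (α : Fin n → R)
    (A : Fin n → Matrix (Fin r) (Fin r) R) : (Fin r → F) →+ (Fin r → F) where
  toFun := pull δ x α A
  map_zero' := by
    funext i
    simp [pull]
  map_add' y z := by
    funext i
    simp only [pull, Pi.add_apply, map_add, mul_add, Finset.sum_add_distrib]
    ring

section iter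

variable (δ : Derivation R F F) (x : F) {n r : ℕ} (α : Fin n → R)
    (A : Fin n → Matrix (Fin r) (Fin r) R)

lemma T_eq' (j : Fin n) : T α = (X - C (α j)) * Tc α j := by
  unfold T Tc
  rw [Finset.mul_prod_erase Finset.univ (fun i => X - C (α i)) (Finset.mem_univ j)]

lemma aeval_T_inv (hT : (aeval x (T α) : F) ≠ 0) (j : Fin n) :
    (aeval x (T α) : F) * (x - algebraMap R F (α j))⁻¹ = aeval x (Tc α j) := by
  rw [T_eq' α j, map_mul, map_sub, aeval_X, aeval_C] at hT ⊢
  have := left_ne_zero_of_mul hT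
  field_simp

lemma pull_eq (hT : (aeval x (T α) : F) ≠ 0) (v : Fin r → F) (i : Fin r) :
    aeval x (T α) * pull δ x α A v i =
      aeval x (T α) * δ (v i) - ∑ l, aeval x (B α A i l) * v l := by
  unfold pull
  rw [mul_sub, Finset.mul_sum]
  congr 1
  have h1 : ∀ l, (aeval x (B α A i l) : F) = ∑ j, aeval x (Tc α j) * algebraMap R F (A j i l) := by
    intro l
    unfold B
    simp only [Matrix.sum_apply, Matrix.smul_apply, smul_eq_mul, Matrix.map_apply, map_sum,
      map_mul, aeval_C]
  simp only [h1, Finset.sum_mul]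
  rw [Finset.sum_comm]
  refine Finset.sum_congr rfl fun j _ => ?_
  rw [← mul_assoc, aeval_T_inv x α hT j, Finset.mul_sum]
  refine Finset.sum_congr rfl fun l _ => ?_
  ring

lemma pull_iterate (hx : δ x = 1) (hT : (aeval x (T α) : F) ≠ 0) (c : Fin r) (i : ℕ) (l : Fin r) :
    (aeval x (T α) : F) ^ i * (pull δ x α A)^[i] (Pi.single c 1) l = aeval x (Q α A i l c) := by
  induction i generalizing l with
  | zero =>
    simp only [pow_zero, one_mul, Function.iterate_zero, id_eq, Q]
    by_cases h : l = c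
    · subst h; simp
    · simp [h]
  | succ i ih =>
    rw [Function.iterate_succ_apply']
    set v := (pull δ x α A)^[i] (Pi.single c 1) with hv
    set t : F := aeval x (T α) with ht
    have h2 : δ (aeval x (Q α A i l c)) =
        (i : F) * t ^ (i - 1) * δ t * v l + t ^ i * δ (v l) := by
      rw [← ih l, Derivation.leibniz, Derivation.leibniz_pow]
      simp only [smul_eq_mul, nsmul_eq_mul]
      ring
    rw [der_aeval δ hx] at h2
    have h3 : δ t = aeval x (derivative (T α)) := der_aeval δ hx _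
    have h4 : Q α A (i + 1) l c = T α * derivative (Q α A i l c) -
        (i : R[X]) * derivative (T α) * Q α A i l c - ∑ m, B α A l m * Q α A i m c := by
      simp only [Q, Matrix.sub_apply, Matrix.smul_apply, smul_eq_mul, Matrix.map_apply,
        Matrix.mul_apply]
    rw [h4]
    simp only [map_sub, map_mul, map_sum, map_natCast]
    rw [h2, h3, ← ht, pow_succ, mul_assoc, pull_eq δ x α A hT, mul_sub, ← ih l]
    have h5 : t ^ i * ∑ m, aeval x (B α A l m) * v m =
        ∑ m, aeval x (B α A l m) * aeval x (Q α A i m c) := by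
      rw [Finset.mul_sum]
      refine Finset.sum_congr rfl fun m _ => ?_
      rw [← ih m]
      ring
    rw [h5]
    have h6 : t * ((i : F) * t ^ (i - 1) * aeval x (derivative (T α)) * v l + t ^ i * δ (v l)) =
        (i : F) * aeval x (derivative (T α)) * (t ^ i * v l) + t ^ i * (t * δ (v l)) := by
      cases i with
      | zero => simp
      | succ m =>
        simp only [Nat.add_sub_cancel]
        ring
    rw [h6]
    ring

end iter

section ideal

variable (x : F) (U : R[X])

/-- The ideal of the coordinate ring generated by `𝔪`. -/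
def II (hU : (aeval x U : F) ≠ 0) (𝔪 : Ideal R) : Ideal (CoordRing x U R).toSubring where
  carrier := {a | ∃ (n : ℕ) (f : R[X]), (∀ m, f.coeff m ∈ 𝔪) ∧
    (aeval x U : F) ^ n * (a : F) = aeval x f}
  add_mem' := by
    rintro a b ⟨n, f, hf, h1⟩ ⟨m, g, hg, h2⟩
    refine ⟨n + m, U ^ m * f + U ^ n * g, fun l => ?_, ?_⟩
    · rw [coeff_add, coeff_mul, coeff_mul]
      exact add_mem (Ideal.sum_mem _ fun z _ => Ideal.mul_mem_left _ _ (hf _))
        (Ideal.sum_mem _ fun z _ => Ideal.mul_mem_left _ _ (hg _))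
    · rw [map_add, map_mul, map_mul, map_pow, map_pow, ← h1, ← h2, Subring.coe_add]
      ring
  zero_mem' := ⟨0, 0, fun m => by rw [coeff_zero]; exact 𝔪.zero_mem, by simp⟩
  smul_mem' := by
    rintro a b ⟨m, g, hg, h2⟩
    obtain ⟨n, f, hf⟩ := adj (R := R) hU a.2
    refine ⟨n + m, f * g, fun l => ?_, ?_⟩
    · rw [coeff_mul]
      exact Ideal.sum_mem _ fun z _ => Ideal.mul_mem_left _ _ (hg _)
    · rw [map_mul, ← hf, ← h2, smul_eq_mul, Subring.coe_mul]
      ring

end ideal

section val

variable {A : Subring F} {y : F}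

lemma Val.add {I : Ideal A} {a b : F} (ha : Val ((fun a : A => (a : F)) '' (I : Set A)) y a)
    (hb : Val ((fun a : A => (a : F)) '' (I : Set A)) y b) :
    Val ((fun a : A => (a : F)) '' (I : Set A)) y (a + b) := by
  obtain ⟨f, hf, rfl⟩ := ha
  obtain ⟨g, hg, rfl⟩ := hb
  refine ⟨f + g, fun m => ?_, by rw [eval_add]⟩
  obtain ⟨u, hu, h1⟩ := hf m
  obtain ⟨w, hw, h2⟩ := hg m
  exact ⟨u + w, I.add_mem hu hw, by rw [coeff_add, ← h1, ← h2]; rfl⟩

lemma Val.zero {I : Ideal A} : Val ((fun a : A => (a : F)) '' (I : Set A)) y 0 :=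
  ⟨0, fun m => ⟨0, I.zero_mem, by rw [coeff_zero]; rfl⟩, by rw [eval_zero]⟩

lemma Val.sum {I : Ideal A} {ι : Type*} (s : Finset ι) {a : ι → F}
    (h : ∀ i ∈ s, Val ((fun a : A => (a : F)) '' (I : Set A)) y (a i)) :
    Val ((fun a : A => (a : F)) '' (I : Set A)) y (∑ i ∈ s, a i) := by
  classical
  induction s using Finset.induction_on with
  | empty => rw [Finset.sum_empty]; exact Val.zero
  | insert a s ha ih =>
    rw [Finset.sum_insert ha]
    exact (h a (Finset.mem_insert_self _ _)).add (ih fun i hi => h i (Finset.mem_insert_of_mem hi))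

lemma Val.mul {I : Ideal A} {a b : F} (ha : a ∈ BB A y)
    (hb : Val ((fun a : A => (a : F)) '' (I : Set A)) y b) :
    Val ((fun a : A => (a : F)) '' (I : Set A)) y (a * b) := by
  obtain ⟨f, hf, rfl⟩ := ha
  obtain ⟨g, hg, rfl⟩ := hb
  refine ⟨f * g, fun m => ?_, by rw [eval_mul]⟩
  have h1 : ∀ s : Finset (ℕ × ℕ), ∃ u ∈ I, (u : F) = ∑ z ∈ s, f.coeff z.1 * g.coeff z.2 := by
    classical
    intro s
    induction s using Finset.induction_on with
    | empty => exact ⟨0, I.zero_mem, by rw [Finset.sum_empty]; rfl⟩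
    | insert z s hz ih =>
      obtain ⟨u, hu, h2⟩ := ih
      obtain ⟨w, hw, h3⟩ := hg z.2
      refine ⟨⟨f.coeff z.1, hf _⟩ * w + u, I.add_mem (I.mul_mem_left _ hw) hu, ?_⟩
      rw [Finset.sum_insert hz, ← h2, ← h3]
      rfl
  obtain ⟨u, hu, h2⟩ := h1 (Finset.HasAntidiagonal.antidiagonal m)
  exact ⟨u, hu, by rw [coeff_mul]; exact h2⟩

lemma Val.of_mem {I : Ideal A} {a : A} (ha : a ∈ I) :
    Val ((fun a : A => (a : F)) '' (I : Set A)) y (a : F) := by
  refine ⟨C (a : F), fun m => ?_, by rw [eval_C]⟩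
  rw [coeff_C]
  split_ifs
  · exact ⟨a, ha, rfl⟩
  · exact ⟨0, I.zero_mem, rfl⟩

end val

end Pool.Agent.Q80.PB
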