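import Mathlib
import Pool.Agent.Q80.PB.Pull

set_option autoImplicit false

open Polynomial Module
open Pool.Agent.W77.IM Pool.Agent.W432.PC

namespace Pool.Agent.Q80.PB

universe u v w

variable {R : Type u} [CommRing R] {F : Type v} [Field F] [Algebra R F]

/-- `(V, ∇)` is a flat bundle (its generic fibre) on the curve with the function field `F`, and `E` is
its restriction to the part `T ≠ 0`, spread out over `R`. -/
structure IsFlat (δ : Derivation R F F) (x : F) (T : R[X]) {V : Type w} [AddCommGroup V]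
    [Module F V] (nabla : V →+ V) (E : Submodule (CoordRing x T R) V) : Prop where
  leibniz : ∀ (f : F) (v : V), nabla (f • v) = δ f • v + f • nabla v
  fg : E.FG
  stable : ∀ v ∈ E, nabla v ∈ E
  span : Submodule.span F (E : Set V) = ⊤

/-- The `p`-curvature at the closed point `𝔪` (with `p ∈ 𝔪`) vanishes. -/
def PCurvAt {x : F} {T : R[X]} {V : Type w} [AddCommGroup V] [Module F V] (nabla : V →+ V)
    (E : Submodule (CoordRing x T R) V) (p : ℕ) (𝔪 : Ideal R) : Prop :=
  ∀ v ∈ E, nabla^[p] v ∈ 𝔪.map (algebraMap R (CoordRing x T R)) • E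

section leib

variable (δ : Derivation R F F) (x : F) {n r : ℕ} (α : Fin n → R)
    (A : Fin n → Matrix (Fin r) (Fin r) R)

lemma pull_smul (f : F) (v : Fin r → F) :
    pull δ x α A (f • v) = δ f • v + f • pull δ x α A v := by
  funext i
  simp only [pull, Pi.smul_apply, Pi.add_apply, smul_eq_mul, Derivation.leibniz, Finset.mul_sum,
    mul_sub]
  have : ∑ j, ∑ l, (x - algebraMap R F (α j))⁻¹ * (algebraMap R F (A j i l) * (f * v l)) =
      ∑ j, ∑ l, f * ((x - algebraMap R F (α j))⁻¹ * (algebraMap R F (A j i l) * v l)) := by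
    refine Finset.sum_congr rfl fun j _ => Finset.sum_congr rfl fun l _ => ?_
    ring
  rw [this]
  ring

/-- The `p`-th iterate on the vectors with entries in a subring. -/
lemma pull_leibniz {B : Subring F} (hB : ∀ a ∈ B, δ a ∈ B)
    (hα : ∀ j, (x - algebraMap R F (α j))⁻¹ ∈ B) (hR : ∀ a : R, algebraMap R F a ∈ B) {p : ℕ}
    (hp : p.Prime) {f : F} (hf : f ∈ B) {w : Fin r → F} (hw : ∀ l, w l ∈ B) :
    ∃ v : Fin r → F, (∀ l, v l ∈ B) ∧ (pull δ x α A)^[p] (f • w) =
      δ^[p] f • w + f • (pull δ x α A)^[p] w + (p : F) • v := by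
  have hst : ∀ w : Fin r → B, ∀ l, pull δ x α A (fun l => (w l : F)) l ∈ B := by
    intro w l
    exact sub_mem (hB _ (w l).2) (sum_mem fun j _ => mul_mem (hα j)
      (sum_mem fun m _ => mul_mem (hR _) (w m).2))
  let d : B → B := fun c => ⟨δ c, hB c c.2⟩
  let D : (Fin r → B) →+ (Fin r → B) :=
    { toFun := fun w l => ⟨_, hst w l⟩
      map_zero' := by
        funext l
        apply Subtype.ext
        simp [pull]
      map_add' := fun a b => by
        funext l
        apply Subtype.ext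
        simp only [pull, Pi.add_apply, Subring.coe_add, map_add, mul_add, Finset.sum_add_distrib]
        ring }
  have hd : ∀ (m : ℕ) (c : B), ((d^[m] c : B) : F) = δ^[m] (c : F) := by
    intro m c
    induction m with
    | zero => rfl
    | succ m ih => rw [Function.iterate_succ_apply', Function.iterate_succ_apply', ← ih]
  have hD : ∀ (m : ℕ) (w : Fin r → B), (fun l => ((D^[m] w l : B) : F)) =
      (pull δ x α A)^[m] (fun l => (w l : F)) := by
    intro m w
    induction m with
    | zero => rfl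
    | succ m ih => rw [Function.iterate_succ_apply', Function.iterate_succ_apply', ← ih]; rfl
  obtain ⟨v, hv⟩ := pleib d D (fun a m => by
    funext l
    apply Subtype.ext
    have := congrFun (pull_smul δ x α A (a : F) (fun l => (m l : F))) l
    exact this) hp (⟨f, hf⟩ : B) (fun l => (⟨w l, hw l⟩ : B))
  refine ⟨fun l => (v l : F), fun l => (v l).2, ?_⟩
  have h1 := congrArg (fun c : Fin r → B => fun l => (c l : F)) hv
  simp only [hD] at h1
  have h2 : (fun l => (((⟨f, hf⟩ : B) • fun l => (⟨w l, hw l⟩ : B)) l : F)) = f • w := rfl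
  rw [h2] at h1
  rw [h1]
  funext l
  simp only [Pi.add_apply, Pi.smul_apply, smul_eq_mul, Subring.coe_add, Subring.coe_mul, hd]
  have h3 := congrFun (hD p (fun l => (⟨w l, hw l⟩ : B))) l
  simp only at h3
  rw [h3]
  simp

end leib

variable [IsDomain R] [CharZero R]

/-- **Vanishing `p`-curvatures of a bundle which maps onto the pullback of a system.** -/
theorem pCurvZeroAt_of_flat (hR : Function.Injective (algebraMap R F)) (δ : Derivation R F F)
    (x : F) (hx : δ x = 1) (halg : ∀ z : F, IsAlgebraic (Algebra.adjoin R ({x} : Set F)) z)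
    {n r : ℕ} (α : Fin n → R) (A : Fin n → Matrix (Fin r) (Fin r) R) (T₀ : R[X]) (hT₀ : T₀ ≠ 0)
    {V : Type w} [AddCommGroup V] [Module F V] (nabla : V →+ V)
    (E : Submodule (CoordRing x T₀ R) V) (hE : IsFlat δ x T₀ nabla E)
    (φ : V →ₗ[F] (Fin r → F)) (hφ : Function.Surjective φ)
    (hflat : ∀ v, φ (nabla v) = pull δ x α A (φ v)) :
    ∃ g : R, g ≠ 0 ∧ ∀ p : ℕ, p.Prime → ∀ (𝔪 : Ideal R) [𝔪.IsMaximal], (p : R) ∈ 𝔪 → g ∉ 𝔪 →
      PCurvAt nabla E p 𝔪 → PCurvZeroAt α A 𝔪 := by
  classical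
  have htr : ∀ q : R[X], q ≠ 0 → (aeval x q : F) ≠ 0 := fun q hq =>
    aeval_ne_zero hR (δ.restrictScalars ℤ) (fun a => δ.map_algebraMap a) x hx hq
  obtain ⟨q, s, hs⟩ := Submodule.fg_iff_exists_fin_generating_family.mp hE.fg
  have hspan : Submodule.span F (Set.range (fun k => φ (s k))) = ⊤ := by
    have h1 : Submodule.span F (Set.range s) = ⊤ := by
      rw [← top_le_iff, ← hE.span]
      refine Submodule.span_le.mpr fun v hv => ?_
      rw [← hs] at hv
      exact Submodule.span_subset_span (CoordRing x T₀ R) F _ hv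
    have h2 : Set.range (fun k => φ (s k)) = φ '' Set.range s := by
      rw [← Set.range_comp]; rfl
    rw [h2, Submodule.span_image, h1, Submodule.map_top, LinearMap.range_eq_top.mpr hφ]
  have hc : ∀ c : Fin r, ∃ f : Fin q → F, ∑ k, f k • φ (s k) = (Pi.single c 1 : Fin r → F) := by
    intro c
    have : (Pi.single c 1 : Fin r → F) ∈ Submodule.span F (Set.range (fun k => φ (s k))) := by
      rw [hspan]; exact Submodule.mem_top
    exact (Submodule.mem_span_range_iff_exists_fun F).mp this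
  choose fc hfc using hc
  let S : Finset F := (Finset.univ.image fun z : Fin r × Fin q => fc z.1 z.2) ∪
    (Finset.univ.image fun z : Fin q × Fin r => φ (s z.1) z.2)
  have hTne : T α ≠ 0 := (monic_prod_of_monic _ _ fun i _ => monic_X_sub_C _ : (T α).Monic).ne_zero
  obtain ⟨U, y, P, hU, hTU, D, hS⟩ := exists_isPrim hR δ x hx halg (T₀ * T α)
    (mul_ne_zero hT₀ hTne) S
  set Ar : Subring F := (CoordRing x U R).toSubring with hAr
  have hUx : (aeval x U : F) ≠ 0 := htr U hU
  have hTx : (aeval x (T α) : F) ≠ 0 := htr _ hTne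
  have hT₀x : (aeval x T₀ : F) ≠ 0 := htr _ hT₀
  have hTαU : T α ∣ U := (dvd_mul_left _ _).trans hTU
  have hT₀U : T₀ ∣ U := (dvd_mul_right _ _).trans hTU
  have hfcB : ∀ c k, fc c k ∈ BB Ar y := fun c k =>
    hS _ (Finset.mem_union_left _ (Finset.mem_image.mpr ⟨(c, k), Finset.mem_univ _, rfl⟩))
  have hsB : ∀ k l, φ (s k) l ∈ BB Ar y := fun k l =>
    hS _ (Finset.mem_union_right _ (Finset.mem_image.mpr ⟨(k, l), Finset.mem_univ _, rfl⟩))
  have hAδ : ∀ a ∈ Ar, δ a ∈ Ar := fun a ha => der_mem δ hx U ha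
  have hRA : ∀ a : R, algebraMap R F a ∈ Ar := fun a => Subalgebra.algebraMap_mem _ a
  have hpolA : ∀ f : R[X], (aeval x f : F) ∈ Ar := fun f => aeval_mem x U f
  have hinvα : ∀ j, (x - algebraMap R F (α j))⁻¹ ∈ Ar := by
    intro j
    have h1 := aeval_T_inv x α hTx j
    have h2 : (x - algebraMap R F (α j))⁻¹ = aeval x (Tc α j) * (aeval x (T α))⁻¹ := by
      rw [← h1]; field_simp
    rw [h2]
    exact mul_mem (hpolA _) (coord_mono x hUx hTαU (inv_mem_coord x _))
  -- the `g`
  refine ⟨U.leadingCoeff, leadingCoeff_ne_zero.mpr hU, fun p hp 𝔪 h𝔪 hpm hg hcurv => ?_⟩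
  have hAp : ∀ a ∈ Ar, ∃ v ∈ Ar, (δ.restrictScalars ℤ)^[p] a = p * v := by
    intro a ha
    obtain ⟨v, hv⟩ := dA_iterate δ hx hUx hp ⟨a, ha⟩
    refine ⟨v, v.2, ?_⟩
    have h1 : ∀ (m : ℕ) (c : CoordRing x U R), (((dA δ hx U)^[m] c : CoordRing x U R) : F) =
        δ^[m] (c : F) := by
      intro m c
      induction m with
      | zero => rfl
      | succ m ih => rw [Function.iterate_succ_apply', Function.iterate_succ_apply', ← ih]; rfl
    have h2 := congrArg (fun c : CoordRing x U R => (c : F)) hv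
    simp only [h1] at h2
    exact h2
  have hBδ : ∀ a ∈ BB Ar y, δ a ∈ BB Ar y := fun a ha =>
    D.der_mem (δ.restrictScalars ℤ) hAδ ha
  have hBp : ∀ a ∈ BB Ar y, ∃ v ∈ BB Ar y, δ^[p] a = p * v := fun a ha =>
    D.iterate (δ.restrictScalars ℤ) hAδ hp hAp ha
  set I : Ideal Ar := II x U hUx 𝔪 with hI
  have hpol : ∀ f : R[X], (∀ m, f.coeff m ∈ 𝔪) →
      Val ((fun a : Ar => (a : F)) '' (I : Set Ar)) y (aeval x f) := by
    intro f hf
    have : (⟨aeval x f, hpolA f⟩ : Ar) ∈ I := ⟨0, f, hf, by rw [pow_zero, one_mul]⟩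
    exact Val.of_mem this
  have hpI : Val ((fun a : Ar => (a : F)) '' (I : Set Ar)) y (p : F) := by
    have := hpol (C (p : R)) (fun m => by
      rw [coeff_C]
      split_ifs
      · exact hpm
      · exact 𝔪.zero_mem)
    rwa [aeval_C, map_natCast] at this
  -- the iterates of the generators
  have hgen : ∀ k l, Val ((fun a : Ar => (a : F)) '' (I : Set Ar)) y
      ((pull δ x α A)^[p] (φ (s k)) l) := by
    intro k l
    have h1 : ∀ (m : ℕ) (v : V), φ (nabla^[m] v) = (pull δ x α A)^[m] (φ v) := by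
      intro m v
      induction m with
      | zero => rfl
      | succ m ih => rw [Function.iterate_succ_apply', Function.iterate_succ_apply', hflat, ih]
    rw [← h1]
    have h2 : s k ∈ E := by
      rw [← hs]; exact Submodule.subset_span ⟨k, rfl⟩
    obtain ⟨m, f, hf, h3⟩ := rep_of_mem_smul (R := R) hT₀x hs.symm 𝔪 (hcurv _ h2)
    have h4 : nabla^[p] (s k) = ((aeval x T₀ : F) ^ m)⁻¹ • ∑ i, (aeval x (f i) : F) • s i := by
      rw [← h3, smul_smul, inv_mul_cancel₀ (pow_ne_zero _ hT₀x), one_smul]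
    rw [h4, map_smul, map_sum, Pi.smul_apply, Finset.sum_apply, smul_eq_mul]
    refine Val.mul (le_BB ?_) (Val.sum _ fun i _ => ?_)
    · rw [← inv_pow]
      exact pow_mem (coord_mono x hUx hT₀U (inv_mem_coord x _)) _
    · rw [map_smul, Pi.smul_apply, smul_eq_mul, mul_comm]
      exact Val.mul (hsB i l) (hpol _ (hf i))
  have hbasis : ∀ c l, Val ((fun a : Ar => (a : F)) '' (I : Set Ar)) y
      ((pull δ x α A)^[p] (Pi.single c 1) l) := by
    intro c l
    rw [← hfc c]
    have h1 : ∀ t : Finset (Fin q), Val ((fun a : Ar => (a : F)) '' (I : Set Ar)) y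
        ((pullHom δ x α A)^[p] (∑ k ∈ t, fc c k • φ (s k)) l) := by
      intro t
      induction t using Finset.induction_on with
      | empty => rw [Finset.sum_empty, iterate_map_zero]; exact Val.zero
      | insert a t ha ih =>
        rw [Finset.sum_insert ha, iterate_map_add, Pi.add_apply]
        refine Val.add ?_ ih
        obtain ⟨v, hv, h2⟩ := pull_leibniz δ x α A hBδ (fun j => le_BB (hinvα j))
          (fun a => le_BB (hRA a)) hp (hfcB c a) (hsB a)
        have h3 : (pullHom δ x α A)^[p] (fc c a • φ (s a)) =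
          (pull δ x α A)^[p] (fc c a • φ (s a)) := rfl
        rw [h3, h2]
        simp only [Pi.add_apply, Pi.smul_apply, smul_eq_mul]
        obtain ⟨w, hw, h4⟩ := hBp _ (hfcB c a)
        refine Val.add (Val.add ?_ ?_) ?_
        · rw [h4, mul_comm (p : F) w, mul_assoc, mul_comm (p : F), ← mul_assoc]
          exact Val.mul (mul_mem hw (hsB a l)) hpI
        · exact Val.mul (hfcB c a) (hgen a l)
        · rw [mul_comm]
          exact Val.mul (hv l) hpI
    exact h1 Finset.univ
  -- the polynomial matrix vanishes modulo `𝔪`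
  have hQ : ∀ l c, (Q α A p l c).map (Ideal.Quotient.mk 𝔪) = 0 := by
    intro l c
    have h1 : Val ((fun a : Ar => (a : F)) '' (I : Set Ar)) y (aeval x (Q α A p l c)) := by
      rw [← pull_iterate δ x α A hx hTx c p l]
      exact Val.mul (le_BB (pow_mem (hpolA _) p)) (hbasis c l)
    have h2 := D.comap I (hpolA (Q α A p l c)) h1
    obtain ⟨m, f, hf, h3⟩ := h2
    have h4 : U ^ m * Q α A p l c = f := by
      by_contra hne
      have h5 := htr _ (sub_ne_zero.mpr hne)
      apply h5
      rw [map_sub, map_mul, map_pow, h3, sub_self]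
    have h5 := congrArg (Polynomial.map (Ideal.Quotient.mk 𝔪)) h4
    have h6 : f.map (Ideal.Quotient.mk 𝔪) = 0 := by
      ext j
      rw [Polynomial.coeff_map, coeff_zero, Ideal.Quotient.eq_zero_iff_mem]
      exact hf j
    rw [h6, Polynomial.map_mul, Polynomial.map_pow] at h5
    have hdom : IsDomain (R ⧸ 𝔪) := Ideal.Quotient.isDomain 𝔪
    refine (mul_eq_zero.mp h5).resolve_left (pow_ne_zero _ ?_)
    intro h7
    have h8 := congrArg (fun q => q.coeff U.natDegree) h7
    simp only [Polynomial.coeff_map, coeff_zero, Ideal.Quotient.eq_zero_iff_mem] at h8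
    exact hg h8
  unfold PCurvZeroAt
  letI : Field (R ⧸ 𝔪) := Ideal.Quotient.field 𝔪
  have hpp : Fact p.Prime := ⟨hp⟩
  have hchar : CharP (R ⧸ 𝔪) p := by
    have h1 : ((p : ℕ) : R ⧸ 𝔪) = 0 := by
      have : ((p : ℕ) : R ⧸ 𝔪) = Ideal.Quotient.mk 𝔪 (p : R) := by simp
      rw [this, Ideal.Quotient.eq_zero_iff_mem]
      exact hpm
    exact (CharP.charP_iff_prime_eq_zero hp).mpr h1
  refine pCurvZero_of_Q (p := p) _ _ ?_
  rw [← Q_map (Ideal.Quotient.mk 𝔪) α A p]
  ext1 l c
  rw [Matrix.map_apply, Matrix.zero_apply]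
  exact hQ l c

end Pool.Agent.Q80.PB
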