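import Mathlib
import Pool.Agent.Q80.PB.Main

set_option autoImplicit false

open Polynomial Module
open Pool.Agent.W77.IM Pool.Agent.W432.PC

namespace Pool.Agent.Q80.PB

universe u v w

/-- Hypothesis (H): the `p`-curvatures at the closed points of a dense open subset of `Spec R`
vanish. -/
def CondH {R : Type u} [CommRing R] {F : Type v} [Field F] [Algebra R F] {x : F} {T : R[X]}
    {V : Type w} [AddCommGroup V] [Module F V] (nabla : V →+ V)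
    (E : Submodule (CoordRing x T R) V) : Prop :=
  ∃ g : R, g ≠ 0 ∧ ∀ p : ℕ, p.Prime → ∀ (𝔪 : Ideal R) [𝔪.IsMaximal], (p : R) ∈ 𝔪 → g ∉ 𝔪 →
    PCurvAt nabla E p 𝔪

variable {R : Type u} [CommRing R] [IsDomain R] [CharZero R] {F : Type v} [Field F] [Algebra R F]

lemma exists_class {R : Type u} [CommRing R] [IsDomain R] [CharZero R] [Algebra.FiniteType ℤ R]
    {g : R} (hg : g ≠ 0) (N : ℕ) (hN : 0 < N) (a : ℤ) (ha : IsCoprime a (N : ℤ)) (P₀ : ℕ) :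
    ∃ p : ℕ, p.Prime ∧ P₀ < p ∧ (N : ℤ) ∣ a * p + 1 ∧ ∃ (𝔪 : Ideal R) (_ : 𝔪.IsMaximal),
      (p : R) ∈ 𝔪 ∧ g ∉ 𝔪 := by
  obtain ⟨P₁, hP₁⟩ := exists_closed_point R hg
  have : NeZero N := ⟨hN.ne'⟩
  obtain ⟨u, v, huv⟩ := ha
  have hunit : IsUnit (((-u : ℤ)) : ZMod N) := by
    refine IsUnit.of_mul_eq_one ((-a : ℤ) : ZMod N) ?_
    have h1 : (((u * a + v * N : ℤ)) : ZMod N) = 1 := by rw [huv]; simp
    push_cast at h1 ⊢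
    rw [ZMod.natCast_self, mul_zero, add_zero] at h1
    rw [neg_mul_neg]; exact h1
  obtain ⟨p, hpgt, hpp, hpeq⟩ := Nat.forall_exists_prime_gt_and_eq_mod hunit (max P₀ P₁)
  have hap : (N : ℤ) ∣ a * p + 1 := by
    rw [← ZMod.intCast_zmod_eq_zero_iff_dvd]
    push_cast
    rw [hpeq]
    have h1 : (((u * a + v * N : ℤ)) : ZMod N) = 1 := by rw [huv]; simp
    push_cast at h1 ⊢
    rw [ZMod.natCast_self, mul_zero, add_zero] at h1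
    linear_combination -h1
  obtain ⟨𝔪, h𝔪, hpm, hgm⟩ := hP₁ p hpp (lt_of_le_of_lt (le_max_right _ _) hpgt)
  exact ⟨p, hpp, lt_of_le_of_lt (le_max_left _ _) hpgt, hap, 𝔪, h𝔪, hpm, hgm⟩

/-- From nonzero `p`-curvatures of the system to nonzero `p`-curvatures of a bundle which maps onto
its pullback. -/
theorem bundle_of_bad [Algebra.FiniteType ℤ R] (hR : Function.Injective (algebraMap R F))
    (δ : Derivation R F F)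
    (x : F) (hx : δ x = 1) (halg : ∀ z : F, IsAlgebraic (Algebra.adjoin R ({x} : Set F)) z)
    {n r : ℕ} (α : Fin n → R) (A : Fin n → Matrix (Fin r) (Fin r) R) (T₀ : R[X]) (hT₀ : T₀ ≠ 0)
    {V : Type w} [AddCommGroup V] [Module F V] (nabla : V →+ V)
    (E : Submodule (CoordRing x T₀ R) V) (hE : IsFlat δ x T₀ nabla E)
    (φ : V →ₗ[F] (Fin r → F)) (hφ : Function.Surjective φ)
    (hflat : ∀ v, φ (nabla v) = pull δ x α A (φ v)) (N : ℕ) (hN : 0 < N)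
    (h : ∃ a : ℤ, IsCoprime a (N : ℤ) ∧ ∃ P₀ : ℕ, ∀ p : ℕ, p.Prime → P₀ < p →
      (N : ℤ) ∣ a * p + 1 → ∀ (𝔪 : Ideal R) [𝔪.IsMaximal], (p : R) ∈ 𝔪 → ¬ PCurvZeroAt α A 𝔪) :
    (∃ a : ℤ, IsCoprime a (N : ℤ) ∧ ∃ g : R, g ≠ 0 ∧ ∃ P₀ : ℕ, ∀ p : ℕ, p.Prime → P₀ < p →
      (N : ℤ) ∣ a * p + 1 → ∀ (𝔪 : Ideal R) [𝔪.IsMaximal], (p : R) ∈ 𝔪 → g ∉ 𝔪 →
        ¬ PCurvAt nabla E p 𝔪) ∧
    ¬ CondH nabla E := by
  obtain ⟨a, ha, P₀, h⟩ := h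
  obtain ⟨g, hg, hcurv⟩ := pCurvZeroAt_of_flat hR δ x hx halg α A T₀ hT₀ nabla E hE φ hφ hflat
  have key : ∀ p : ℕ, p.Prime → P₀ < p → (N : ℤ) ∣ a * p + 1 → ∀ (𝔪 : Ideal R) [𝔪.IsMaximal],
      (p : R) ∈ 𝔪 → g ∉ 𝔪 → ¬ PCurvAt nabla E p 𝔪 := fun p hp hpP hap 𝔪 _ hpm hgm hc =>
    h p hp hpP hap 𝔪 hpm (hcurv p hp 𝔪 hpm hgm hc)
  refine ⟨⟨a, ha, g, hg, P₀, key⟩, ?_⟩
  rintro ⟨g', hg', hH⟩
  obtain ⟨p, hp, hpP, hap, 𝔪, h𝔪, hpm, hgm⟩ := exists_class (mul_ne_zero hg hg') N hN a ha P₀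
  have hg1 : g ∉ 𝔪 := fun h0 => hgm (Ideal.mul_mem_right _ _ h0)
  have hg2 : g' ∉ 𝔪 := fun h0 => hgm (Ideal.mul_mem_left _ _ h0)
  exact key p hp hpP hap 𝔪 hpm hg1 (hH p hp 𝔪 hpm hg2)

end Pool.Agent.Q80.PB
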