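import Mathlib
import Pool.Agent.Q80.PB.Cond
import Pool.Agent.Y227.TP.Final

set_option autoImplicit false

open Polynomial Module
open Pool.Agent.W77.IM Pool.Agent.W432.PC Pool.Agent.W432.TC Pool.Agent.W432.HK
open Pool.Agent.Y227.SS Pool.Agent.TH571.GP Pool.Agent.Y227.TP

namespace Pool.Agent.Q80.PB

universe u v w

section defs

variable {R : Type u} [CommRing R] {F : Type v} [Field F] [Algebra R F] {x : F} {T : R[X]}
    {V : Type w} [AddCommGroup V] [Module F V]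

/-- The `p`-curvature is nonzero at some closed point of residue characteristic `p`. -/
def BadE (nabla : V →+ V) (E : Submodule (CoordRing x T R) V) (p : ℕ) : Prop :=
  ∃ (𝔪 : Ideal R) (_ : 𝔪.IsMaximal), (p : R) ∈ 𝔪 ∧ ¬ PCurvAt nabla E p 𝔪

/-- There are at least `ε φ(N)` residue classes modulo `N`, prime to `N`, such that for all large primes
`p` in these classes the `p`-curvature is nonzero at all closed points of residue characteristic `p`. -/
def BadClassesE (nabla : V →+ V) (E : Submodule (CoordRing x T R) V) (N : ℕ) (ε : ℝ) : Prop :=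
  ∃ (S : Finset (ZMod N)ˣ) (P₀ : ℕ), ε * N.totient ≤ S.card ∧
    ∀ p : ℕ, p.Prime → P₀ < p → (∃ v ∈ S, ((p : ℕ) : ZMod N) = ((v : (ZMod N)ˣ) : ZMod N)) →
      ∀ (𝔪 : Ideal R) [𝔪.IsMaximal], (p : R) ∈ 𝔪 → ¬ PCurvAt nabla E p 𝔪

end defs

/-- In an order with finitely many elements inverted, a nonzero element is in no closed point of large
residue characteristic. -/
lemma exists_bound {R : Type u} [CommRing R] [IsDomain R] [CharZero R] [Algebra.IsAlgebraic ℤ R]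
    {g : R} (hg : g ≠ 0) : ∃ P₁ : ℕ, ∀ p : ℕ, p.Prime → P₁ < p → ∀ (𝔪 : Ideal R) [𝔪.IsMaximal],
      (p : R) ∈ 𝔪 → g ∉ 𝔪 := by
  obtain ⟨m, hm, hgm⟩ := (Algebra.IsAlgebraic.isAlgebraic (R := ℤ) g).exists_nonzero_dvd
    (mem_nonZeroDivisors_of_ne_zero hg)
  refine ⟨m.natAbs, fun p hp hpm 𝔪 h𝔪 hp𝔪 hg𝔪 => ?_⟩
  have h1 : ((m : ℤ) : R) ∈ 𝔪 := by
    have : algebraMap ℤ R m ∈ 𝔪 := Ideal.mem_of_dvd 𝔪 hgm hg𝔪
    simpa using this
  have h2 : IsCoprime (m : ℤ) (p : ℤ) := by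
    rw [Int.isCoprime_iff_gcd_eq_one, Int.gcd_comm]
    have h3 : Nat.Coprime p m.natAbs := by
      rw [Nat.Prime.coprime_iff_not_dvd hp]
      exact fun hd => absurd (Nat.le_of_dvd (Int.natAbs_pos.mpr hm) hd) (by omega)
    simpa [Int.gcd] using h3
  obtain ⟨a, b, hab⟩ := h2
  have h4 : (1 : R) ∈ 𝔪 := by
    have h5 : ((a * m + b * p : ℤ) : R) = 1 := by rw [hab]; simp
    rw [← h5]
    push_cast
    exact add_mem (Ideal.mul_mem_left _ _ h1) (Ideal.mul_mem_left _ _ hp𝔪)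
  exact h𝔪.ne_top ((Ideal.eq_top_iff_one 𝔪).mpr h4)

/-- From few primes with nonzero `p`-curvature for the bundle to few for the system. -/
lemma few_of_few {Bad Bad' : ℕ → Prop} {ε : ℝ} (hε : 0 < ε) {P₁ : ℕ}
    (h : ∀ p, p.Prime → P₁ < p → Bad p → Bad' p) (hfew : Few Bad' (ε / 2)) : Few Bad ε := by
  intro N₀
  obtain ⟨N₁, hN₁⟩ : ∃ N₁ : ℕ, ∀ N, N₁ ≤ N → (P₁ + 1 : ℝ) ≤ ε / 2 * Nat.primeCounting N := by
    have h1 := Nat.tendsto_primeCounting
    have h2 : Filter.Tendsto (fun N : ℕ => ε / 2 * (Nat.primeCounting N : ℝ)) Filter.atTop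
        Filter.atTop :=
      (tendsto_natCast_atTop_atTop.comp h1).const_mul_atTop (by positivity)
    exact Filter.eventually_atTop.mp (h2.eventually_ge_atTop (P₁ + 1 : ℝ))
  obtain ⟨N, hN, hlt⟩ := hfew (max N₀ N₁)
  refine ⟨N, (le_max_left _ _).trans hN, ?_⟩
  have h3 := hN₁ N ((le_max_right _ _).trans hN)
  have hfin : ∀ B : ℕ → Prop, Set.Finite {p : ℕ | p ≤ N ∧ p.Prime ∧ B p} := fun B =>
    (Set.finite_Iic N).subset fun p hp => hp.1
  have h4 : (Nat.card {p : ℕ // p ≤ N ∧ p.Prime ∧ Bad p} : ℝ) ≤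
      Nat.card {p : ℕ // p ≤ N ∧ p.Prime ∧ Bad' p} + (P₁ + 1 : ℕ) := by
    have h5 : {p : ℕ | p ≤ N ∧ p.Prime ∧ Bad p} ⊆
        {p : ℕ | p ≤ N ∧ p.Prime ∧ Bad' p} ∪ Set.Iic P₁ := by
      rintro p ⟨hp1, hp2, hp3⟩
      rcases le_or_gt p P₁ with h6 | h6
      · exact Or.inr h6
      · exact Or.inl ⟨hp1, hp2, h p hp2 h6 hp3⟩
    have h6 := Set.ncard_le_ncard h5 ((hfin Bad').union (Set.finite_Iic P₁))
    have h7 := h6.trans (Set.ncard_union_le _ _)
    have h8 : (Set.Iic P₁).ncard = P₁ + 1 := by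
      rw [← Finset.coe_Iic, Set.ncard_coe_finset, Nat.card_Iic]
    rw [h8] at h7
    have h9 : ∀ B : ℕ → Prop, Nat.card {p : ℕ // p ≤ N ∧ p.Prime ∧ B p} =
      Set.ncard {p : ℕ | p ≤ N ∧ p.Prime ∧ B p} := fun B => rfl
    rw [h9, h9]
    exact_mod_cast h7
  push_cast at h4
  linarith

/-- The uniform density theorem for bundles which map onto the pullback of a system. -/
theorem density_bundle (n r : ℕ) :
    ∃ (ε : ℝ) (𝒟 : Finset (AddSubgroup (ExponentIndex n r → ℤ) × (ExponentIndex n r → ℚ))),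
      0 < ε ∧ (∀ C ∈ 𝒟, Adapted C) ∧
      ∀ (R : Type u) [CommRing R] [IsDomain R] [CharZero R] [Algebra.FiniteType ℤ R]
        [Algebra.IsAlgebraic ℤ R] (α : Fin n → R) (A : Fin n → Matrix (Fin r) (Fin r) R),
        (∀ i j, i ≠ j → IsUnit (α i - α j)) →
        ∀ (F : Type v) [Field F] [Algebra R F] (δ : Derivation R F F) (x : F) (T : R[X])
          (V : Type w) [AddCommGroup V] [Module F V] (nabla : V →+ V)
          (E : Submodule (CoordRing x T R) V) (φ : V →ₗ[F] (Fin r → F)),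
          Function.Injective (algebraMap R F) → δ x = 1 →
          (∀ z : F, IsAlgebraic (Algebra.adjoin R ({x} : Set F)) z) → T ≠ 0 →
          IsFlat δ x T nabla E → Function.Surjective φ →
          (∀ v, φ (nabla v) = pull δ x α A (φ v)) →
        (∀ lam phi N, (∀ j, HasExponents (A j) (lam j)) → HasExponents (∑ j, A j) phi →
          CommonDen lam phi N → BadClassesE nabla E N ε ∨
            (ConjGood α A lam phi N ∧ ∃ C ∈ 𝒟, InCoset C.1 C.2 (pt lam phi))) ∧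
        (Few (BadE nabla E) ε → ∃ lam phi, (∀ j, DiagExps (A j) (lam j)) ∧
          DiagExps (∑ j, A j) phi ∧ (∀ N, CommonDen lam phi N → ConjGood α A lam phi N) ∧
          ∃ C ∈ 𝒟, InCoset C.1 C.2 (pt lam phi)) := by
  obtain ⟨ε, 𝒟, hε, h𝒟, h⟩ := density_sys.{u} n r
  refine ⟨ε / 2, 𝒟, by positivity, fun C hC => adapted_of_nice (h𝒟 C hC), ?_⟩
  intro R _ _ _ _ _ α A hα F _ _ δ x T V _ _ nabla E φ hR hx halg hT hE hφ hflat
  obtain ⟨h1, h2⟩ := h R α A hα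
  obtain ⟨g, hg, hcurv⟩ := pCurvZeroAt_of_flat hR δ x hx halg α A T hT nabla E hE φ hφ hflat
  obtain ⟨P₁, hP₁⟩ := exists_bound hg
  refine ⟨fun lam phi N he he' hN => ?_, fun hfew => h2 ?_⟩
  · rcases h1 lam phi N he he' hN with hbad | hgood
    · left
      obtain ⟨S, P₀, hS, hP₀⟩ := hbad
      refine ⟨S, max P₀ P₁, ?_, fun p hp hpP hpS 𝔪 h𝔪 hpm hc => ?_⟩
      · have : (0 : ℝ) ≤ N.totient := Nat.cast_nonneg _
        nlinarith
      · exact hP₀ p hp (lt_of_le_of_lt (le_max_left _ _) hpP) hpS 𝔪 hpm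
          (fun h0 => h𝔪.ne_top ((Ideal.eq_top_iff_one 𝔪).mpr h0))
          (hcurv p hp 𝔪 hpm (hP₁ p hp (lt_of_le_of_lt (le_max_right _ _) hpP) 𝔪 hpm) hc)
    · exact Or.inr hgood
  · refine few_of_few hε (P₁ := P₁) (fun p hp hpP hbad => ?_) hfew
    obtain ⟨𝔪, h𝔪, hpm, hno⟩ := hbad
    exact ⟨𝔪, h𝔪, hpm, fun hc => hno (hcurv p hp 𝔪 hpm (hP₁ p hp hpP 𝔪 hpm) hc)⟩

end Pool.Agent.Q80.PB
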